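import Pool.Agent.V11229.Occ
import Pool.Agent.V11229.LMat

/-!
# Edge-disjoint perfect matchings, the first one monochromatic: `NP`-completeness
-/

namespace Pool.Agent.Results.MP_439cda_lc.Col2PMNPComplete

open Pool.Agent.NPC Pool.Agent.V11229

/-- `M` is a perfect matching of the bipartite graph with parts `U`, `V` and edges the pairs `(u, v)`
with `c u v ≠ none` (a colour): a set of edges such that every vertex of `U` and every vertex of
`V` is in exactly one edge of `M`. -/
def IsPM {U V : Type} (c : U → V → Option Bool) (M : Set (U × V)) : Prop :=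
  (∀ e ∈ M, c e.1 e.2 ≠ none) ∧ (∀ u, ∃! v, (u, v) ∈ M) ∧ (∀ v, ∃! u, (u, v) ∈ M)

/-- There are edge-disjoint perfect matchings `M₁`, `M₂` with all edges of `M₁` of the first colour
(`some true`). -/
def TwoPM {U V : Type} (c : U → V → Option Bool) : Prop :=
  ∃ M₁ M₂ : Set (U × V), IsPM c M₁ ∧ IsPM c M₂ ∧ Disjoint M₁ M₂ ∧
    ∀ e ∈ M₁, c e.1 e.2 = some true

/-- The decision problem COL-2PM. An input is a square matrix `B` with entries `none` (no edge),
`some true` (an edge of colour 1), `some false` (an edge of colour 2); its rows are the vertices of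
`U`, its columns those of `V`. -/
def COL2PM (B : LMat (Option Bool)) : Prop := TwoPM B.f

theorem twoPM_iff {U V : Type} (c : U → V → Option Bool) : TwoPM c ↔
    ∃ σ τ : U ≃ V, (∀ u, c u (σ u) = some true) ∧ (∀ u, c u (τ u) ≠ none) ∧ ∀ u, σ u ≠ τ u := by
  have key : ∀ M : Set (U × V), IsPM c M → ∃ σ : U ≃ V, ∀ u v, (u, v) ∈ M ↔ σ u = v := by
    rintro M ⟨_, h1, h2⟩
    choose f hf hf2 using h1
    have hf2' : ∀ u v, (u, v) ∈ M → v = f u := fun u v h => hf2 u v h
    have hbij : Function.Bijective f := by
      constructor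
      · intro a b hab
        obtain ⟨w, _, hw⟩ := h2 (f a)
        rw [hw a (hf a), hw b (by have := hf b; rw [← hab] at this; exact this)]
      · intro v
        obtain ⟨u, hu, _⟩ := h2 v
        exact ⟨u, (hf2' u v hu).symm⟩
    refine ⟨Equiv.ofBijective f hbij, fun u v => ⟨fun h => (hf2' u v h).symm, ?_⟩⟩
    rintro rfl
    exact hf u
  constructor
  · rintro ⟨M₁, M₂, h1, h2, h3, h4⟩
    obtain ⟨σ, hσ⟩ := key M₁ h1
    obtain ⟨τ, hτ⟩ := key M₂ h2
    refine ⟨σ, τ, fun u => h4 (u, σ u) ((hσ _ _).2 rfl), fun u => h2.1 (u, τ u) ((hτ _ _).2 rfl),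
      fun u hu => ?_⟩
    exact Set.disjoint_left.1 h3 ((hσ u (σ u)).2 rfl) ((hτ u (σ u)).2 hu.symm)
  · rintro ⟨σ, τ, h1, h2, h3⟩
    refine ⟨{e | σ e.1 = e.2}, {e | τ e.1 = e.2}, ⟨?_, ?_, ?_⟩, ⟨?_, ?_, ?_⟩, ?_, ?_⟩
    · intro e he
      have he' : σ e.1 = e.2 := he
      rw [← he', h1]
      simp
    · intro u
      exact ⟨σ u, rfl, fun v hv => Eq.symm hv⟩
    · intro v
      exact ⟨σ.symm v, by simp, fun u hu => by
        have : σ u = v := hu
        rw [← this, σ.symm_apply_apply]⟩
    · intro e he
      have he' : τ e.1 = e.2 := he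
      rw [← he']
      exact h2 _
    · intro u
      exact ⟨τ u, rfl, fun v hv => Eq.symm hv⟩
    · intro v
      exact ⟨τ.symm v, by simp, fun u hu => by
        have : τ u = v := hu
        rw [← this, τ.symm_apply_apply]⟩
    · rw [Set.disjoint_left]
      rintro ⟨u, v⟩ hu hv
      have e1 : σ u = v := hu
      have e2 : τ u = v := hv
      exact h3 u (e1.trans e2.symm)
    · intro e he
      have he' : σ e.1 = e.2 := he
      rw [← he']
      exact h1 _

/-! ### Membership in `NP` -/

/-- the verifier: the two matchings are given as lists -/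
def ver (x : LMat (Option Bool) × (List ℕ × List ℕ)) : Bool :=
  (List.range x.1.n).all (fun i =>
    ((decide (x.2.1.getD i 0 < x.1.n) && decide (x.2.2.getD i 0 < x.1.n)) &&
      (decide (x.1.ent none i (x.2.1.getD i 0) = some true) &&
      (!(decide (x.1.ent none i (x.2.2.getD i 0) = none)) &&
        !(decide (x.2.1.getD i 0 = x.2.2.getD i 0))))) &&
    (List.range x.1.n).all (fun j => decide (i = j) ||
      (!(decide (x.2.1.getD i 0 = x.2.1.getD j 0)) &&
        !(decide (x.2.2.getD i 0 = x.2.2.getD j 0)))))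

theorem ver_poly : Poly ver := by
  unfold ver
  refine Poly.allRange (n := fun x : LMat (Option Bool) × (List ℕ × List ℕ) => x.1.n)
    (p := fun x i => ((decide (x.2.1.getD i 0 < x.1.n) && decide (x.2.2.getD i 0 < x.1.n)) &&
      (decide (x.1.ent none i (x.2.1.getD i 0) = some true) &&
      (!(decide (x.1.ent none i (x.2.2.getD i 0) = none)) &&
        !(decide (x.2.1.getD i 0 = x.2.2.getD i 0))))) &&
    (List.range x.1.n).all (fun j => decide (i = j) ||
      (!(decide (x.2.1.getD i 0 = x.2.1.getD j 0)) &&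
        !(decide (x.2.2.getD i 0 = x.2.2.getD j 0))))) (UPoly.lmat_n (by fun_prop)) ?_
  refine NPC.Poly.and (by fun_prop) ?_
  exact Poly.allRange (n := fun x : (LMat (Option Bool) × (List ℕ × List ℕ)) × ℕ => x.1.1.n)
    (p := fun x j => decide (x.2 = j) ||
      (!(decide (x.1.2.1.getD x.2 0 = x.1.2.1.getD j 0)) &&
        !(decide (x.1.2.2.getD x.2 0 = x.1.2.2.getD j 0)))) (UPoly.lmat_n (by fun_prop))
    (by fun_prop)

theorem sz_ofFn_le {n : ℕ} (f : Fin n → Fin n) :
    sz (List.ofFn (fun i => (f i : ℕ))) ≤ n * (4 * n + 2) + 1 := by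
  have h := sz_le_length_mul (List.ofFn (fun i => (f i : ℕ))) (4 * n + 1) (by
    intro a ha
    rw [List.mem_ofFn] at ha
    obtain ⟨i, rfl⟩ := ha
    have h1 := sz_nat_le (f i : ℕ)
    have h2 : ((f i : ℕ)).size ≤ (f i : ℕ) := Nat.size_le.2 Nat.lt_two_pow_self
    have h3 := (f i).isLt
    omega)
  simpa using h

theorem ofFn_getD {n : ℕ} (f : Fin n → Fin n) (i : Fin n) :
    (List.ofFn (fun i => (f i : ℕ))).getD i 0 = f i := by
  simp [List.getD_eq_getElem?_getD]

/-- COL-2PM is in `NP`. -/
theorem inNPP_col2pm : InNPP COL2PM := by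
  refine inNPP_of ver_poly (Polynomial.C 16 * Polynomial.X * Polynomial.X + Polynomial.C 16 *
    Polynomial.X + Polynomial.C 16) ?_
  intro B
  unfold COL2PM
  rw [twoPM_iff]
  constructor
  · rintro ⟨σ, τ, h1, h2, h3⟩
    refine ⟨(List.ofFn (fun i => (σ i : ℕ)), List.ofFn (fun i => (τ i : ℕ))), ?_, ?_⟩
    · have e1 := sz_ofFn_le σ
      have e2 := sz_ofFn_le τ
      have e3 : B.n < sz B := by
        have := length_lt_sz B.rows
        rw [LMat.length_rows] at this
        exact this
      have e4 : B.n * (4 * B.n + 2) ≤ sz B * (4 * sz B + 2) := by gcongr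
      rw [sz_pair]
      simp only [Polynomial.eval_add, Polynomial.eval_mul, Polynomial.eval_X,
        Polynomial.eval_C]
      nlinarith
    · simp only [ver, List.all_eq_true, List.mem_range, Bool.and_eq_true, decide_eq_true_eq,
        Bool.or_eq_true, Bool.not_eq_true', decide_eq_false_iff_not]
      intro i hi
      have g1 := ofFn_getD σ ⟨i, hi⟩
      have g2 := ofFn_getD τ ⟨i, hi⟩
      simp only at g1 g2
      rw [g1, g2]
      refine ⟨⟨⟨(σ ⟨i, hi⟩).isLt, (τ ⟨i, hi⟩).isLt⟩, ?_, ?_, ?_⟩, ?_⟩
      · have := LMat.ent_fin B none ⟨i, hi⟩ (σ ⟨i, hi⟩)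
        simp only at this
        rw [this]
        exact h1 _
      · have := LMat.ent_fin B none ⟨i, hi⟩ (τ ⟨i, hi⟩)
        simp only at this
        rw [this]
        exact h2 _
      · intro h
        exact h3 ⟨i, hi⟩ (Fin.ext h)
      · intro j hj
        by_cases hij : i = j
        · exact Or.inl hij
        · right
          have g3 := ofFn_getD σ ⟨j, hj⟩
          have g4 := ofFn_getD τ ⟨j, hj⟩
          simp only at g3 g4
          rw [g3, g4]
          refine ⟨fun h => hij ?_, fun h => hij ?_⟩
          · exact congrArg Fin.val (σ.injective (Fin.ext h))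
          · exact congrArg Fin.val (τ.injective (Fin.ext h))
  · rintro ⟨⟨l, l'⟩, _, h⟩
    simp only [ver, List.all_eq_true, List.mem_range, Bool.and_eq_true, decide_eq_true_eq,
        Bool.or_eq_true, Bool.not_eq_true', decide_eq_false_iff_not] at h
    let σ : Fin B.n → Fin B.n := fun i => ⟨l.getD i 0, (h i i.isLt).1.1.1⟩
    let τ : Fin B.n → Fin B.n := fun i => ⟨l'.getD i 0, (h i i.isLt).1.1.2⟩
    have hσ : Function.Injective σ := by
      intro i j hij
      rcases (h i i.isLt).2 j j.isLt with h1 | h1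
      · exact Fin.ext h1
      · exact absurd (congrArg Fin.val hij) h1.1
    have hτ : Function.Injective τ := by
      intro i j hij
      rcases (h i i.isLt).2 j j.isLt with h1 | h1
      · exact Fin.ext h1
      · exact absurd (congrArg Fin.val hij) h1.2
    refine ⟨Equiv.ofBijective σ (Finite.injective_iff_bijective.1 hσ),
      Equiv.ofBijective τ (Finite.injective_iff_bijective.1 hτ), fun u => ?_, fun u => ?_,
      fun u hu => ?_⟩
    · have h1 := (h u u.isLt).1.2.1
      have h2 := LMat.ent_fin B none u (σ u)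
      rw [← h1]
      exact h2.symm
    · have h1 := (h u u.isLt).1.2.2.1
      have h2 := LMat.ent_fin B none u (τ u)
      intro hc
      exact h1 (h2.trans hc)
    · exact (h u u.isLt).1.2.2.2 (congrArg Fin.val hu)

/-! ### The reduction from 3SAT -/

section Red

/-- labels: `(0,o)`, `(1,o)`, `(2,o)` for the occurrences and `(3,j)`, `(4,j)` for the clauses -/
abbrev Lab : Type := ℕ × ℕ

/-- the number of the vertex of the occurrence `o` that is forced -/
def fc (φ : F3) (o : ℕ) : ℕ := if (lt φ o).1 = true then 0 else 1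

/-- edges of colour 1 -/
def c1B (φ : F3) (u v : Lab) : Bool :=
  ((decide (u.1 = 0) || decide (u.1 = 1)) && (decide (v.1 = 0) && decide (u.2 = v.2))) ||
  ((decide (u.1 = 0) && (decide (v.1 = 1) && decide (nx φ v.2 = u.2))) ||
  ((decide (u.1 = 1) && (decide (v.1 = 1) && decide (u.2 = v.2))) ||
  ((decide (u.1 = 2) && (decide (v.1 = 2) && decide (u.2 = v.2))) ||
  (decide (3 ≤ u.1) && (decide (u.1 = v.1) && decide (u.2 = v.2))))))

/-- edges of colour 2 -/
def c2B (φ : F3) (u v : Lab) : Bool :=
  (decide (u.1 = 2) && (decide (v.1 = 1) && decide (u.2 = v.2))) ||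
  ((decide (v.1 = 2) && (decide (u.1 = fc φ v.2) && decide (u.2 = v.2))) ||
  ((decide (3 ≤ u.1) && (decide (v.1 = 0) && decide (v.2 / 3 = u.2))) ||
  (decide (3 ≤ v.1) && (decide (u.1 + fc φ u.2 = 1) && decide (u.2 / 3 = v.2)))))

/-- the coloured edges -/
def colB (φ : F3) (u v : Lab) : Option Bool :=
  if c1B φ u v = true then some true else if c2B φ u v = true then some false else none

/-- the vertices of each side -/
def vsL (m : ℕ) : List Lab :=
  ([0, 1, 2] ×ˢ List.range (m * 3)) ++ ([3, 4] ×ˢ List.range m)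

/-- the reduction -/
def red (φ : F3) : LMat (Option Bool) := LMat.ofList (vsL φ.length) (colB φ)

theorem fc_poly {α : Type} [TEnc α] {f : α → F3} {o : α → ℕ} (h : Poly f) (h' : Poly o) :
    Poly (fun x => fc (f x) (o x)) := by
  unfold fc
  fun_prop

attribute [local fun_prop] fc_poly

theorem red_poly : Poly red := by
  unfold red
  refine Poly.ofList (ad := colB) ?_ ?_
  · unfold vsL
    have u' : UPoly (fun φ : F3 => φ.length) := UPoly.length NPC.Poly.id
    have u : UPoly (fun φ : F3 => φ.length * 3) := UPoly.mul u' (UPoly.const 3)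
    have h1 := u.range
    have h2 := u'.range
    fun_prop
  · have h1 : Poly (fun p : (F3 × Lab) × Lab => c1B p.1.1 p.1.2 p.2) := by
      unfold c1B
      fun_prop
    have h2 : Poly (fun p : (F3 × Lab) × Lab => c2B p.1.1 p.1.2 p.2) := by
      unfold c2B
      have e1 : Poly (fun p : (F3 × Lab) × Lab => p.2.2 / 3) :=
        NPC.Poly.div (by fun_prop) (NPC.Poly.const 3)
      have e2 : Poly (fun p : (F3 × Lab) × Lab => p.1.2.2 / 3) :=
        NPC.Poly.div (by fun_prop) (NPC.Poly.const 3)
      fun_prop
    unfold colB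
    fun_prop

/-- three kinds of vertices of an occurrence -/
inductive K : Type
  | a : K
  | b : K
  | c : K
  deriving DecidableEq

instance : Fintype K := ⟨{K.a, K.b, K.c}, fun x => by cases x <;> simp⟩

/-- the vertices of each side, as a type -/
abbrev UT (m : ℕ) : Type := (K × Fin (m * 3)) ⊕ (Bool × Fin m)

/-- the number of a kind -/
def K.num : K → ℕ
  | K.a => 0
  | K.b => 1
  | K.c => 2

/-- the labels -/
def lab {m : ℕ} : UT m → Lab
  | Sum.inl (k, o) => (k.num, o)
  | Sum.inr (i, j) => (if i = true then 4 else 3, j)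

theorem lab_injective {m : ℕ} : Function.Injective (lab : UT m → Lab) := by
  rintro (⟨k, o⟩ | ⟨i, j⟩) (⟨k', o'⟩ | ⟨i', j'⟩) h
  · cases k <;> cases k' <;> simp [lab, K.num] at h ⊢ <;> exact Fin.ext h
  · cases k <;> cases i' <;> simp [lab, K.num] at h
  · cases k' <;> cases i <;> simp [lab, K.num] at h
  · cases i <;> cases i' <;> simp [lab] at h ⊢ <;> exact Fin.ext h

theorem vsL_nodup (m : ℕ) : (vsL m).Nodup := by
  unfold vsL
  rw [List.nodup_append]
  refine ⟨List.Nodup.product (by simp) List.nodup_range,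
    List.Nodup.product (by simp) List.nodup_range, ?_⟩
  intro a ha b hb
  have h1 := (List.mem_product.1 ha).1
  have h2 := (List.mem_product.1 hb).1
  rintro rfl
  simp only [List.mem_cons, List.not_mem_nil, or_false] at h1 h2
  omega

theorem mem_vsL {m : ℕ} (z : Lab) : z ∈ vsL m ↔ ∃ x : UT m, lab x = z := by
  unfold vsL
  rw [List.mem_append]
  constructor
  · obtain ⟨a, j⟩ := z
    rintro (h | h)
    · obtain ⟨h1, h2⟩ := List.mem_product.1 h
      simp only [List.mem_cons, List.not_mem_nil, or_false] at h1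
      rw [List.mem_range] at h2
      rcases h1 with rfl | rfl | rfl
      · exact ⟨Sum.inl (K.a, ⟨j, h2⟩), rfl⟩
      · exact ⟨Sum.inl (K.b, ⟨j, h2⟩), rfl⟩
      · exact ⟨Sum.inl (K.c, ⟨j, h2⟩), rfl⟩
    · obtain ⟨h1, h2⟩ := List.mem_product.1 h
      simp only [List.mem_cons, List.not_mem_nil, or_false] at h1
      rw [List.mem_range] at h2
      rcases h1 with rfl | rfl
      · exact ⟨Sum.inr (false, ⟨j, h2⟩), rfl⟩
      · exact ⟨Sum.inr (true, ⟨j, h2⟩), rfl⟩
  · rintro ⟨x, rfl⟩
    rcases x with ⟨k, o⟩ | ⟨i, j⟩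
    · left
      exact List.mem_product.2 ⟨by cases k <;> simp [K.num], List.mem_range.2 o.isLt⟩
    · right
      exact List.mem_product.2 ⟨by cases i <;> simp, List.mem_range.2 j.isLt⟩

variable (φ : F3)

/-- the sign of an occurrence -/
def sg (o : Fin (φ.length * 3)) : Bool := (lt φ o).1

/-- the colouring on the vertex type -/
def cT (u v : UT φ.length) : Option Bool := colB φ (lab u) (lab v)

variable {φ}

theorem cT_eq_true (u v : UT φ.length) : cT φ u v = some true ↔ c1B φ (lab u) (lab v) = true := by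
  unfold cT colB
  by_cases h : c1B φ (lab u) (lab v) = true
  · simp [h]
  · rw [if_neg h]
    split_ifs <;> simp [h]

theorem cT_ne_none (u v : UT φ.length) : cT φ u v ≠ none ↔
    c1B φ (lab u) (lab v) = true ∨ c2B φ (lab u) (lab v) = true := by
  unfold cT colB
  by_cases h : c1B φ (lab u) (lab v) = true
  · simp [h]
  · rw [if_neg h]
    by_cases h2 : c2B φ (lab u) (lab v) = true
    · simp [h2]
    · rw [if_neg h2]
      simp [h, h2]

/-- abbreviations for the vertices -/
abbrev va (o : Fin (φ.length * 3)) : UT φ.length := Sum.inl (K.a, o)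
/-- abbreviations for the vertices -/
abbrev vb (o : Fin (φ.length * 3)) : UT φ.length := Sum.inl (K.b, o)
/-- abbreviations for the vertices -/
abbrev vc (o : Fin (φ.length * 3)) : UT φ.length := Sum.inl (K.c, o)
/-- abbreviations for the vertices -/
abbrev vp (i : Bool) (j : Fin φ.length) : UT φ.length := Sum.inr (i, j)

theorem c1_a {o : Fin (φ.length * 3)} {v : UT φ.length} :
    c1B φ (lab (va o)) (lab v) = true ↔ v = va o ∨ ∃ o', v = vb o' ∧ nxP φ o' = o := by
  rcases v with ⟨k, o'⟩ | ⟨i, j⟩
  · cases k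
    · simp [c1B, lab, K.num, Fin.ext_iff, eq_comm]
    · simp only [c1B, lab, K.num, ← nxP_val]
      simp only [Nat.zero_ne_one, Fin.ext_iff, decide_true, decide_false,
        Bool.true_and, Bool.false_and, Bool.false_or, Bool.or_false,
        Sum.inl.injEq, Prod.mk.injEq, reduceCtorEq, false_and, false_or, true_and, one_ne_zero]
      simp only [show (3 ≤ 0) = False by simp, decide_false,
        Bool.false_and, Bool.or_false, decide_eq_true_eq]
      exact ⟨fun h => ⟨o', rfl, h⟩, fun ⟨x, hx, h⟩ => by rw [Fin.ext hx]; exact h⟩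
    · simp [c1B, lab, K.num]
  · cases i <;> simp [c1B, lab, K.num]

theorem c1_b {o : Fin (φ.length * 3)} {v : UT φ.length} :
    c1B φ (lab (vb o)) (lab v) = true ↔ v = va o ∨ v = vb o := by
  rcases v with ⟨k, o'⟩ | ⟨i, j⟩
  · cases k <;> simp [c1B, lab, K.num, Fin.ext_iff, eq_comm]
  · cases i <;> simp [c1B, lab, K.num]

theorem c1_c {o : Fin (φ.length * 3)} {v : UT φ.length} :
    c1B φ (lab (vc o)) (lab v) = true ↔ v = vc o := by
  rcases v with ⟨k, o'⟩ | ⟨i, j⟩
  · cases k <;> simp [c1B, lab, K.num, Fin.ext_iff, eq_comm]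
  · cases i <;> simp [c1B, lab, K.num]

theorem c1_p {i : Bool} {j : Fin φ.length} {v : UT φ.length} :
    c1B φ (lab (vp i j)) (lab v) = true ↔ v = vp i j := by
  rcases v with ⟨k, o'⟩ | ⟨i', j'⟩
  · cases k <;> cases i <;> simp [c1B, lab, K.num]
  · cases i <;> cases i' <;> simp [c1B, lab, Fin.ext_iff, eq_comm]

theorem fc_eq (o : Fin (φ.length * 3)) : fc φ o = if sg φ o = true then 0 else 1 := rfl

theorem c2_a {o : Fin (φ.length * 3)} {v : UT φ.length} :
    c2B φ (lab (va o)) (lab v) = true ↔ (sg φ o = true ∧ v = vc o) ∨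
      (sg φ o = false ∧ ∃ i j, v = vp i j ∧ (o : ℕ) / 3 = j) := by
  rcases v with ⟨k, o'⟩ | ⟨i', j'⟩
  · cases k
    · simp [c2B, lab, K.num]
    · simp [c2B, lab, K.num]
    · simp only [c2B, lab, K.num, Bool.or_eq_true, Bool.and_eq_true, decide_eq_true_eq]
      by_cases ho : o = o'
      · subst ho
        rw [fc_eq]
        cases sg φ o <;> simp
      · have ho' : (o : ℕ) ≠ o' := fun h => ho (Fin.ext h)
        simp [ho', Ne.symm ho]
  · simp only [c2B, lab, K.num, Bool.or_eq_true, Bool.and_eq_true, decide_eq_true_eq]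
    rw [fc_eq]
    cases sg φ o <;> cases i' <;> simp

theorem c2_b {o : Fin (φ.length * 3)} {v : UT φ.length} :
    c2B φ (lab (vb o)) (lab v) = true ↔ (sg φ o = false ∧ v = vc o) ∨
      (sg φ o = true ∧ ∃ i j, v = vp i j ∧ (o : ℕ) / 3 = j) := by
  rcases v with ⟨k, o'⟩ | ⟨i', j'⟩
  · cases k
    · simp [c2B, lab, K.num]
    · simp [c2B, lab, K.num]
    · simp only [c2B, lab, K.num, Bool.or_eq_true, Bool.and_eq_true, decide_eq_true_eq]
      by_cases ho : o = o'
      · subst ho
        rw [fc_eq]
        cases sg φ o <;> simp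
      · have ho' : (o : ℕ) ≠ o' := fun h => ho (Fin.ext h)
        simp [ho', Ne.symm ho]
  · simp only [c2B, lab, K.num, Bool.or_eq_true, Bool.and_eq_true, decide_eq_true_eq]
    rw [fc_eq]
    cases sg φ o <;> cases i' <;> simp

theorem c2_c {o : Fin (φ.length * 3)} {v : UT φ.length} :
    c2B φ (lab (vc o)) (lab v) = true ↔ v = vb o := by
  have hfc : ∀ n, fc φ n ≤ 1 := fun n => by unfold fc; split_ifs <;> omega
  have h2 : ∀ n, ¬ (2 = fc φ n) := fun n h => by have := hfc n; omega
  have h3 : ∀ n, ¬ (2 + fc φ n = 1) := fun n h => by omega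
  rcases v with ⟨k, o'⟩ | ⟨i', j'⟩
  · cases k
    · simp [c2B, lab, K.num]
    · simp [c2B, lab, K.num, Fin.ext_iff, eq_comm]
    · simp [c2B, lab, K.num, h2]
  · cases i' <;> simp [c2B, lab, K.num, h3]

theorem c2_p {i : Bool} {j : Fin φ.length} {v : UT φ.length} :
    c2B φ (lab (vp i j)) (lab v) = true ↔ ∃ o, v = va o ∧ (o : ℕ) / 3 = j := by
  have hfc : ∀ n, fc φ n ≤ 1 := fun n => by unfold fc; split_ifs <;> omega
  have h2 : ∀ n, ¬ (3 = fc φ n) := fun n h => by have := hfc n; omega
  have h2' : ∀ n, ¬ (4 = fc φ n) := fun n h => by have := hfc n; omega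
  have h3 : ∀ n, ¬ (3 + fc φ n = 1) := fun n h => by omega
  have h3' : ∀ n, ¬ (4 + fc φ n = 1) := fun n h => by omega
  rcases v with ⟨k, o'⟩ | ⟨i', j'⟩
  · cases k <;> cases i <;> simp [c2B, lab, K.num, h2, h2']
  · cases i' <;> cases i <;> simp [c2B, lab, h3, h3']

/-- From two matchings to a satisfying assignment. -/
theorem sat_of_matchings (h : TwoPM (cT φ)) : SAT3 φ := by
  rw [twoPM_iff] at h
  obtain ⟨σ, τ, hσ, hτ, hd⟩ := h
  have hσ1 : ∀ u, c1B φ (lab u) (lab (σ u)) = true := fun u => (cT_eq_true _ _).1 (hσ u)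
  have hτ1 : ∀ u, c1B φ (lab u) (lab (τ u)) = true ∨ c2B φ (lab u) (lab (τ u)) = true :=
    fun u => (cT_ne_none _ _).1 (hτ u)
  have sc : ∀ o, σ (vc o) = vc o := fun o => c1_c.1 (hσ1 (vc o))
  have sp : ∀ i j, σ (vp i j) = vp i j := fun i j => c1_p.1 (hσ1 (vp i j))
  have tc : ∀ o, τ (vc o) = vb o := by
    intro o
    rcases hτ1 (vc o) with h | h
    · exact absurd ((sc o).trans (c1_c.1 h).symm) (hd _)
    · exact c2_c.1 h
  have tp : ∀ i j, ∃ r, τ (vp i j) = va (oc j r) := by
    intro i j
    rcases hτ1 (vp i j) with h | h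
    · exact absurd ((sp i j).trans (c1_p.1 h).symm) (hd _)
    · obtain ⟨o, ho, ho2⟩ := c2_p.1 h
      obtain ⟨j', r, rfl⟩ := exists_oc o
      have : j' = j := by
        apply Fin.ext
        simp only [oc] at ho2
        omega
      subst this
      exact ⟨r, ho⟩
  have sa : ∀ o, σ (va o) = va o ∨ ∃ o', σ (va o) = vb o' ∧ nxP φ o' = o := fun o =>
    c1_a.1 (hσ1 (va o))
  have sb : ∀ o, σ (vb o) = va o ∨ σ (vb o) = vb o := fun o => c1_b.1 (hσ1 (vb o))
  -- the vertex matched to the forcing vertex
  have tw : ∀ o, (sg φ o = true → τ (va o) = vc o) ∧ (sg φ o = false → τ (vb o) = vc o) := by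
    intro o
    obtain ⟨u, hu⟩ := τ.surjective (vc o)
    have key : (sg φ o = true ∧ u = va o) ∨ (sg φ o = false ∧ u = vb o) := by
      have h0 := hτ1 u
      rw [hu] at h0
      rcases u with ⟨(_ | _ | _), o'⟩ | ⟨i, j⟩
      · rcases h0 with h | h
        · rcases c1_a.1 h with h | ⟨_, h, _⟩ <;> exact absurd h (by simp)
        · rcases c2_a.1 h with ⟨h1, h2⟩ | ⟨_, _, _, h, _⟩
          · simp only [Sum.inl.injEq, Prod.mk.injEq, true_and] at h2
            subst h2
            exact Or.inl ⟨h1, rfl⟩
          · exact absurd h (by simp)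
      · rcases h0 with h | h
        · rcases c1_b.1 h with h | h <;> exact absurd h (by simp)
        · rcases c2_b.1 h with ⟨h1, h2⟩ | ⟨_, _, _, h, _⟩
          · simp only [Sum.inl.injEq, Prod.mk.injEq, true_and] at h2
            subst h2
            exact Or.inr ⟨h1, rfl⟩
          · exact absurd h (by simp)
      · exact absurd ((tc o').symm.trans hu) (by simp)
      · obtain ⟨r, hr⟩ := tp i j
        exact absurd (hr.symm.trans hu) (by simp)
    rcases key with ⟨h1, rfl⟩ | ⟨h1, rfl⟩
    · exact ⟨fun _ => hu, fun h => absurd (h1.symm.trans h) (by simp)⟩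
    · exact ⟨fun h => absurd (h1.symm.trans h) (by simp), fun _ => hu⟩
  -- the preimage of `va o` under `σ`
  have sa' : ∀ o, σ (va o) = va o ∨ σ (vb o) = va o := by
    intro o
    obtain ⟨u, hu⟩ := σ.surjective (va o)
    have h0 := hσ1 u
    rw [hu] at h0
    rcases u with ⟨(_ | _ | _), o'⟩ | ⟨i, j⟩
    · rcases c1_a.1 h0 with h | ⟨_, h, _⟩
      · simp only [Sum.inl.injEq, Prod.mk.injEq, true_and] at h
        subst h
        exact Or.inl hu
      · exact absurd h (by simp)
    · rcases c1_b.1 h0 with h | h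
      · simp only [Sum.inl.injEq, Prod.mk.injEq, true_and] at h
        subst h
        exact Or.inr hu
      · exact absurd h (by simp)
    · exact absurd ((sc o').symm.trans hu) (by simp)
    · exact absurd ((sp i j).symm.trans hu) (by simp)
  -- the preimage of `vb o` under `σ`
  have sb' : ∀ o, σ (vb o) = vb o ∨ σ (va (nxP φ o)) = vb o := by
    intro o
    obtain ⟨u, hu⟩ := σ.surjective (vb o)
    have h0 := hσ1 u
    rw [hu] at h0
    rcases u with ⟨(_ | _ | _), o'⟩ | ⟨i, j⟩
    · rcases c1_a.1 h0 with h | ⟨o2, h, h2⟩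
      · exact absurd h (by simp)
      · simp only [Sum.inl.injEq, Prod.mk.injEq, true_and] at h
        subst h
        rw [← h2] at hu
        exact Or.inr hu
    · rcases c1_b.1 h0 with h | h
      · exact absurd h (by simp)
      · simp only [Sum.inl.injEq, Prod.mk.injEq, true_and] at h
        subst h
        exact Or.inl hu
    · exact absurd ((sc o').symm.trans hu) (by simp)
    · exact absurd ((sp i j).symm.trans hu) (by simp)
  rw [sat3_iff]
  refine ⟨fun o => decide (σ (va o) = va o), fun o => ?_, fun j => ?_⟩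
  · -- constant along the cycles
    simp only [decide_eq_decide]
    constructor
    · intro h
      by_contra hc
      have h1 : σ (vb o) = va o := (sa' o).resolve_left hc
      have h2 : σ (va (nxP φ o)) = vb o := (sb' o).resolve_left (by rw [h1]; simp)
      rw [h] at h2
      exact absurd h2 (by simp)
    · intro h
      have h1 : σ (vb o) = vb o := by
        refine (sb o).resolve_left fun h1 => ?_
        have := σ.injective (h.trans h1.symm)
        exact absurd this (by simp)
      rcases sa (nxP φ o) with h2 | ⟨o', h2, h3⟩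
      · exact h2
      · have : o' = o := (nxP φ).injective h3
        subst this
        have := σ.injective (h1.trans h2.symm)
        exact absurd this (by simp)
  · -- a true literal
    obtain ⟨r0, hr0⟩ := tp false j
    obtain ⟨r1, hr1⟩ := tp true j
    have hne : r0 ≠ r1 := by
      rintro rfl
      have := τ.injective (hr0.trans hr1.symm)
      simp at this
    obtain ⟨r, hra, hrb⟩ : ∃ r : Fin 3, r ≠ r0 ∧ r ≠ r1 := by
      revert hne
      clear hr0 hr1
      revert r0 r1
      decide
    refine ⟨r, ?_⟩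
    set o := oc j r with ho
    obtain ⟨u, hu⟩ := τ.surjective (va o)
    have hu2 : u = va o ∨ u = vb o := by
      have h0 := hτ1 u
      rw [hu] at h0
      rcases u with ⟨(_ | _ | _), o'⟩ | ⟨i, j'⟩
      · rcases h0 with h | h
        · rcases c1_a.1 h with h | ⟨_, h, _⟩
          · exact Or.inl h.symm
          · exact absurd h (by simp)
        · rcases c2_a.1 h with ⟨_, h2⟩ | ⟨_, _, _, h, _⟩
          · exact absurd h2 (by simp)
          · exact absurd h (by simp)
      · rcases h0 with h | h
        · rcases c1_b.1 h with h | h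
          · simp only [Sum.inl.injEq, Prod.mk.injEq, true_and] at h
            rw [h]
            exact Or.inr rfl
          · exact absurd h (by simp)
        · rcases c2_b.1 h with ⟨_, h2⟩ | ⟨_, _, _, h, _⟩
          · exact absurd h2 (by simp)
          · exact absurd h (by simp)
      · exact absurd ((tc o').symm.trans hu) (by simp)
      · exfalso
        obtain ⟨r', hr'⟩ := tp i j'
        have h1 : va (oc j' r') = va o := hr'.symm.trans hu
        simp only [Sum.inl.injEq, Prod.mk.injEq, true_and] at h1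
        obtain ⟨h2, h3⟩ := oc_inj (h1.trans ho)
        subst h2 h3
        cases i
        · have := hr'.symm.trans hr0
          simp only [Sum.inl.injEq, Prod.mk.injEq, true_and] at this
          exact hra (oc_inj this).2
        · have := hr'.symm.trans hr1
          simp only [Sum.inl.injEq, Prod.mk.injEq, true_and] at this
          exact hrb (oc_inj this).2
    change decide (σ (va o) = va o) = sg φ o
    cases hs : sg φ o with
    | true =>
      rw [decide_eq_true_eq]
      have h1 := (tw o).1 hs
      have h2 : u = vb o := by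
        refine hu2.resolve_left fun h => ?_
        rw [h, h1] at hu
        exact absurd hu (by simp)
      rw [h2] at hu
      refine (sa' o).resolve_right fun h => ?_
      exact hd _ (h.trans hu.symm)
    | false =>
      rw [decide_eq_false_iff_not]
      intro h
      have h1 := (tw o).2 hs
      have h2 : u = va o := by
        refine hu2.resolve_right fun h => ?_
        rw [h, h1] at hu
        exact absurd hu (by simp)
      rw [h2] at hu
      exact hd _ (h.trans hu.symm)

/-- the clause of an occurrence -/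
def jo {m : ℕ} (o : Fin (m * 3)) : Fin m := ⟨o / 3, by omega⟩

/-- the place of an occurrence in its clause -/
def ro {m : ℕ} (o : Fin (m * 3)) : Fin 3 := ⟨o % 3, by omega⟩

theorem oc_jo {m : ℕ} (o : Fin (m * 3)) : oc (jo o) (ro o) = o := by
  apply Fin.ext
  simp only [oc, jo, ro]
  omega

theorem jo_oc {m : ℕ} (j : Fin m) (r : Fin 3) : jo (oc j r) = j := (oc_inj (oc_jo (oc j r))).1

theorem ro_oc {m : ℕ} (j : Fin m) (r : Fin 3) : ro (oc j r) = r := (oc_inj (oc_jo (oc j r))).2

/-- the places different from `r` -/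
def s2 (r : Fin 3) (i : Bool) : Fin 3 := if i = true then r + 2 else r + 1

/-- the number of a place different from `r` -/
def t2 (r x : Fin 3) : Bool := decide (x = r + 2)

theorem s2_ne : ∀ r i, s2 r i ≠ r := by decide
theorem s2_t2 : ∀ r x, x ≠ r → s2 r (t2 r x) = x := by decide
theorem s2_inj : ∀ r i i', s2 r i = s2 r i' → i = i' := by decide

/-- From a satisfying assignment to two matchings. -/
theorem matchings_of_sat (h : SAT3 φ) : TwoPM (cT φ) := by
  rw [sat3_iff] at h
  obtain ⟨y, hy, hc⟩ := h
  choose r hr using hc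
  have hr' : ∀ j, y (oc j (r j)) = sg φ (oc j (r j)) := hr
  have hy' : ∀ o, y ((nxP φ).symm o) = y o := by
    intro o
    have := hy ((nxP φ).symm o)
    rw [Equiv.apply_symm_apply] at this
    exact this.symm
  let B : Fin (φ.length * 3) → UT φ.length := fun o =>
    if ro o = r (jo o) then va o else vp (t2 (r (jo o)) (ro o)) (jo o)
  let σ : UT φ.length → UT φ.length := fun u => match u with
    | Sum.inl (K.a, o) => if y o = true then va o else vb ((nxP φ).symm o)
    | Sum.inl (K.b, o) => if y o = true then vb o else va o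
    | Sum.inl (K.c, o) => vc o
    | Sum.inr (i, j) => vp i j
  let τ : UT φ.length → UT φ.length := fun u => match u with
    | Sum.inl (K.a, o) => if sg φ o = true then vc o else B o
    | Sum.inl (K.b, o) => if sg φ o = true then B o else vc o
    | Sum.inl (K.c, o) => vb o
    | Sum.inr (i, j) => va (oc j (s2 (r j) i))
  have sA : ∀ o, σ (va o) = if y o = true then va o else vb ((nxP φ).symm o) := fun _ => rfl
  have sB : ∀ o, σ (vb o) = if y o = true then vb o else va o := fun _ => rfl
  have sC : ∀ o, σ (vc o) = vc o := fun _ => rfl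
  have sP : ∀ i j, σ (vp i j) = vp i j := fun _ _ => rfl
  have tA : ∀ o, τ (va o) = if sg φ o = true then vc o else B o := fun _ => rfl
  have tB : ∀ o, τ (vb o) = if sg φ o = true then B o else vc o := fun _ => rfl
  have tC : ∀ o, τ (vc o) = vb o := fun _ => rfl
  have tP : ∀ i j, τ (vp i j) = va (oc j (s2 (r j) i)) := fun _ _ => rfl
  have Bcases : ∀ o, (B o = va o ∧ ro o = r (jo o)) ∨
      (B o = vp (t2 (r (jo o)) (ro o)) (jo o) ∧ ro o ≠ r (jo o)) := by
    intro o
    by_cases h : ro o = r (jo o)
    · exact Or.inl ⟨if_pos h, h⟩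
    · exact Or.inr ⟨if_neg h, h⟩
  have Bb : ∀ o o', B o ≠ vb o' := by
    intro o o' h
    rcases Bcases o with ⟨h1, _⟩ | ⟨h1, _⟩ <;> rw [h1] at h <;> simp at h
  have Bc : ∀ o o', B o ≠ vc o' := by
    intro o o' h
    rcases Bcases o with ⟨h1, _⟩ | ⟨h1, _⟩ <;> rw [h1] at h <;> simp at h
  have Bsel : ∀ o i j, B o ≠ va (oc j (s2 (r j) i)) := by
    intro o i j h
    rcases Bcases o with ⟨h1, h2⟩ | ⟨h1, _⟩ <;> rw [h1] at h
    · simp only [Sum.inl.injEq, Prod.mk.injEq, true_and] at h
      rw [h, jo_oc, ro_oc] at h2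
      exact s2_ne _ _ h2
    · simp at h
  have Binj : ∀ o o', B o = B o' → o = o' := by
    intro o o' h
    rcases Bcases o with ⟨h1, h2⟩ | ⟨h1, h2⟩ <;> rcases Bcases o' with ⟨h1', h2'⟩ | ⟨h1', h2'⟩ <;>
      rw [h1, h1'] at h
    · simpa using h
    · simp at h
    · simp at h
    · simp only [Sum.inr.injEq, Prod.mk.injEq] at h
      obtain ⟨h3, h4⟩ := h
      have e1 := s2_t2 _ _ h2
      have e2 := s2_t2 _ _ h2'
      rw [← h4] at h3 e2
      rw [← h3, e1] at e2
      rw [← oc_jo o, ← oc_jo o', e2, h4]
  have σinj : Function.Injective σ := by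
    rintro (⟨(_ | _ | _), o⟩ | ⟨i, j⟩) (⟨(_ | _ | _), o'⟩ | ⟨i', j'⟩) h
    all_goals simp only [sA, sB, sC, sP] at h
    · by_cases h1 : y o = true <;> by_cases h2 : y o' = true
      · simpa [h1, h2] using h
      · simp [h1, h2] at h
      · simp [h1, h2] at h
      · simpa [h1, h2] using h
    · exfalso
      by_cases h1 : y o = true <;> by_cases h2 : y o' = true
      · simp [h1, h2] at h
      · simp only [h1, h2, if_true, if_false, Sum.inl.injEq, Prod.mk.injEq, true_and,
          Bool.false_eq_true] at h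
        rw [h] at h1
        exact h2 h1
      · simp only [h1, h2, if_true, if_false, Sum.inl.injEq, Prod.mk.injEq, true_and,
          Bool.false_eq_true] at h
        rw [← h, hy'] at h2
        exact h1 h2
      · simp [h1, h2] at h
    · exfalso
      by_cases h1 : y o = true <;> simp [h1] at h
    · exfalso
      by_cases h1 : y o = true <;> simp [h1] at h
    · exfalso
      by_cases h1 : y o = true <;> by_cases h2 : y o' = true
      · simp [h1, h2] at h
      · simp only [h1, h2, if_true, if_false, Sum.inl.injEq, Prod.mk.injEq, true_and,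
          Bool.false_eq_true] at h
        rw [h, hy'] at h1
        exact h2 h1
      · simp only [h1, h2, if_true, if_false, Sum.inl.injEq, Prod.mk.injEq, true_and,
          Bool.false_eq_true] at h
        rw [← h] at h2
        exact h1 h2
      · simp [h1, h2] at h
    · by_cases h1 : y o = true <;> by_cases h2 : y o' = true
      · simpa [h1, h2] using h
      · simp [h1, h2] at h
      · simp [h1, h2] at h
      · simpa [h1, h2] using h
    · exfalso
      by_cases h1 : y o = true <;> simp [h1] at h
    · exfalso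
      by_cases h1 : y o = true <;> simp [h1] at h
    · exfalso
      by_cases h1 : y o' = true <;> simp [h1] at h
    · exfalso
      by_cases h1 : y o' = true <;> simp [h1] at h
    · exact h
    · simp at h
    · exfalso
      by_cases h1 : y o' = true <;> simp [h1] at h
    · exfalso
      by_cases h1 : y o' = true <;> simp [h1] at h
    · simp at h
    · exact h
  have τinj : Function.Injective τ := by
    rintro (⟨(_ | _ | _), o⟩ | ⟨i, j⟩) (⟨(_ | _ | _), o'⟩ | ⟨i', j'⟩) h
    all_goals simp only [tA, tB, tC, tP] at h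
    · by_cases h1 : sg φ o = true <;> by_cases h2 : sg φ o' = true
      · simpa [h1, h2] using h
      · rw [if_pos h1, if_neg h2] at h
        exact absurd h.symm (Bc _ _)
      · rw [if_neg h1, if_pos h2] at h
        exact absurd h (Bc _ _)
      · rw [if_neg h1, if_neg h2] at h
        rw [Binj _ _ h]
    · exfalso
      by_cases h1 : sg φ o = true <;> by_cases h2 : sg φ o' = true
      · rw [if_pos h1, if_pos h2] at h
        exact absurd h.symm (Bc _ _)
      · rw [if_pos h1, if_neg h2] at h
        simp only [Sum.inl.injEq, Prod.mk.injEq, true_and] at h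
        rw [h] at h1
        exact h2 h1
      · rw [if_neg h1, if_pos h2] at h
        rw [Binj _ _ h] at h1
        exact h1 h2
      · rw [if_neg h1, if_neg h2] at h
        exact absurd h (Bc _ _)
    · exfalso
      by_cases h1 : sg φ o = true
      · simp [h1] at h
      · rw [if_neg h1] at h
        exact Bb _ _ h
    · exfalso
      by_cases h1 : sg φ o = true
      · simp [h1] at h
      · rw [if_neg h1] at h
        exact Bsel _ _ _ h
    · exfalso
      by_cases h1 : sg φ o = true <;> by_cases h2 : sg φ o' = true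
      · rw [if_pos h1, if_pos h2] at h
        exact absurd h (Bc _ _)
      · rw [if_pos h1, if_neg h2] at h
        rw [Binj _ _ h] at h1
        exact h2 h1
      · rw [if_neg h1, if_pos h2] at h
        simp only [Sum.inl.injEq, Prod.mk.injEq, true_and] at h
        rw [h] at h1
        exact h1 h2
      · rw [if_neg h1, if_neg h2] at h
        exact absurd h.symm (Bc _ _)
    · by_cases h1 : sg φ o = true <;> by_cases h2 : sg φ o' = true
      · rw [if_pos h1, if_pos h2] at h
        rw [Binj _ _ h]
      · rw [if_pos h1, if_neg h2] at h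
        exact absurd h (Bc _ _)
      · rw [if_neg h1, if_pos h2] at h
        exact absurd h.symm (Bc _ _)
      · simpa [h1, h2] using h
    · exfalso
      by_cases h1 : sg φ o = true
      · rw [if_pos h1] at h
        exact Bb _ _ h
      · simp [h1] at h
    · exfalso
      by_cases h1 : sg φ o = true
      · rw [if_pos h1] at h
        exact Bsel _ _ _ h
      · simp [h1] at h
    · exfalso
      by_cases h1 : sg φ o' = true
      · simp [h1] at h
      · rw [if_neg h1] at h
        exact Bb _ _ h.symm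
    · exfalso
      by_cases h1 : sg φ o' = true
      · rw [if_pos h1] at h
        exact Bb _ _ h.symm
      · simp [h1] at h
    · simpa using h
    · simp at h
    · exfalso
      by_cases h1 : sg φ o' = true
      · simp [h1] at h
      · rw [if_neg h1] at h
        exact Bsel _ _ _ h.symm
    · exfalso
      by_cases h1 : sg φ o' = true
      · rw [if_pos h1] at h
        exact Bsel _ _ _ h.symm
      · simp [h1] at h
    · simp at h
    · simp only [Sum.inl.injEq, Prod.mk.injEq, true_and] at h
      obtain ⟨h1, h2⟩ := oc_inj h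
      subst h1
      rw [s2_inj _ _ _ h2]
  rw [twoPM_iff]
  refine ⟨Equiv.ofBijective σ (Finite.injective_iff_bijective.1 σinj),
    Equiv.ofBijective τ (Finite.injective_iff_bijective.1 τinj), fun u => ?_, fun u => ?_,
    fun u => ?_⟩
  · rw [cT_eq_true]
    change c1B φ (lab u) (lab (σ u)) = true
    rcases u with ⟨(_ | _ | _), o⟩ | ⟨i, j⟩
    · rw [sA]
      by_cases h1 : y o = true
      · rw [if_pos h1]
        exact c1_a.2 (Or.inl rfl)
      · rw [if_neg h1]
        exact c1_a.2 (Or.inr ⟨_, rfl, Equiv.apply_symm_apply _ _⟩)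
    · rw [sB]
      by_cases h1 : y o = true
      · rw [if_pos h1]
        exact c1_b.2 (Or.inr rfl)
      · rw [if_neg h1]
        exact c1_b.2 (Or.inl rfl)
    · exact c1_c.2 rfl
    · exact c1_p.2 rfl
  · rw [cT_ne_none]
    change c1B φ (lab u) (lab (τ u)) = true ∨ c2B φ (lab u) (lab (τ u)) = true
    have hjo : ∀ o : Fin (φ.length * 3), (o : ℕ) / 3 = (jo o : ℕ) := fun o => rfl
    rcases u with ⟨(_ | _ | _), o⟩ | ⟨i, j⟩
    · rw [tA]
      by_cases h1 : sg φ o = true
      · rw [if_pos h1]
        exact Or.inr (c2_a.2 (Or.inl ⟨h1, rfl⟩))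
      · rw [if_neg h1]
        have h1' : sg φ o = false := by simpa using h1
        rcases Bcases o with ⟨h2, _⟩ | ⟨h2, _⟩ <;> rw [h2]
        · exact Or.inl (c1_a.2 (Or.inl rfl))
        · exact Or.inr (c2_a.2 (Or.inr ⟨h1', _, _, rfl, hjo o⟩))
    · rw [tB]
      by_cases h1 : sg φ o = true
      · rw [if_pos h1]
        rcases Bcases o with ⟨h2, _⟩ | ⟨h2, _⟩ <;> rw [h2]
        · exact Or.inl (c1_b.2 (Or.inl rfl))
        · exact Or.inr (c2_b.2 (Or.inr ⟨h1, _, _, rfl, hjo o⟩))
      · rw [if_neg h1]
        have h1' : sg φ o = false := by simpa using h1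
        exact Or.inr (c2_b.2 (Or.inl ⟨h1', rfl⟩))
    · exact Or.inr (c2_c.2 rfl)
    · refine Or.inr (c2_p.2 ⟨_, rfl, ?_⟩)
      simp only [oc]
      omega
  · change σ u ≠ τ u
    rcases u with ⟨(_ | _ | _), o⟩ | ⟨i, j⟩
    · rw [sA, tA]
      by_cases h1 : sg φ o = true
      · rw [if_pos h1]
        by_cases h2 : y o = true <;> simp [h2]
      · rw [if_neg h1]
        rcases Bcases o with ⟨h2, h3⟩ | ⟨h2, _⟩ <;> rw [h2]
        · have h4 := hr' (jo o)
          rw [← h3, oc_jo] at h4
          rw [← h4] at h1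
          rw [if_neg h1]
          simp
        · by_cases h3 : y o = true <;> simp [h3]
    · rw [sB, tB]
      by_cases h1 : sg φ o = true
      · rw [if_pos h1]
        rcases Bcases o with ⟨h2, h3⟩ | ⟨h2, _⟩ <;> rw [h2]
        · have h4 := hr' (jo o)
          rw [← h3, oc_jo] at h4
          rw [← h4] at h1
          rw [if_pos h1]
          simp
        · by_cases h3 : y o = true <;> simp [h3]
      · rw [if_neg h1]
        by_cases h2 : y o = true <;> simp [h2]
    · rw [sC, tC]
      simp
    · rw [sP, tP]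
      simp

theorem TwoPM.equiv {U V U' V' : Type} (e : U ≃ U') (f : V ≃ V') {c : U → V → Option Bool}
    {c' : U' → V' → Option Bool} (h : ∀ u v, c u v = c' (e u) (f v)) (hc : TwoPM c) :
    TwoPM c' := by
  rw [twoPM_iff] at hc ⊢
  obtain ⟨σ, τ, h1, h2, h3⟩ := hc
  refine ⟨(e.symm.trans σ).trans f, (e.symm.trans τ).trans f, fun u => ?_, fun u => ?_,
    fun u hu => ?_⟩
  · have := h1 (e.symm u)
    rw [h, e.apply_symm_apply] at this
    exact this
  · have := h2 (e.symm u)
    rw [h, e.apply_symm_apply] at this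
    exact this
  · exact h3 (e.symm u) (f.injective hu)

theorem red_iff (φ : F3) : SAT3 φ ↔ COL2PM (red φ) := by
  obtain ⟨e, he⟩ := R671.exists_equiv (vsL φ.length) (vsL_nodup _)
    (lab : UT φ.length → Lab) lab_injective mem_vsL
  have h1 : SAT3 φ ↔ TwoPM (cT φ) := ⟨matchings_of_sat, sat_of_matchings⟩
  rw [h1]
  constructor
  · refine TwoPM.equiv (c' := (red φ).f) e.symm e.symm fun u v => ?_
    have e1 := he (e.symm u)
    have e2 := he (e.symm v)
    rw [e.apply_symm_apply] at e1 e2
    change colB φ (lab u) (lab v) = colB φ (vsL φ.length)[e.symm u] (vsL φ.length)[e.symm v]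
    rw [e1, e2]
  · refine TwoPM.equiv (c := (red φ).f) e e fun u v => ?_
    change colB φ (vsL φ.length)[u] (vsL φ.length)[v] = colB φ (lab (e u)) (lab (e v))
    rw [he, he]

theorem npHard_col2pm : NPHardP COL2PM := (hardI_SAT3.trans red_poly red_iff).toNPHardP

end Red

/-- **COL-2PM is `NP`-complete.** -/
theorem result : InNPP COL2PM ∧ NPHardP COL2PM := ⟨inNPP_col2pm, npHard_col2pm⟩

end Pool.Agent.Results.MP_439cda_lc.Col2PMNPComplete
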